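import Mathlib
import Pool.Agent.Lib.MP_f1bc00_pr.Main

set_option autoImplicit false

open Filter Topology MeasureTheory Pool.Agent.MBDom

/-- For every bias `b ≥ 1` and every constant `p ∈ (0,1)` there is a strictly increasing sequence
of orders `n` along which the probability that the binomial random graph `G(n,p)` satisfies
`γ_MB(G,b) = ⌈γ(G)/b⌉` or `γ'_MB(G,b) = ⌈γ(G)/b⌉` tends to `0`. -/
theorem Pool.Agent.Results.MP_f1bc00_pr.Disproof.result
    (b : ℕ) (hb : 1 ≤ b) (p : unitInterval) (hp0 : 0 < p) (hp1 : p < 1) :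
    ∃ φ : ℕ → ℕ, StrictMono φ ∧
      Tendsto (fun k => SimpleGraph.binomialRandom (Fin (φ k)) p
        {G | gammaMB G b = (⌈(dominationNumber G : ℚ) / b⌉₊ : ℕ) ∨
             gammaMB' G b = (⌈(dominationNumber G : ℚ) / b⌉₊ : ℕ)}) atTop (𝓝 0) := by
  obtain ⟨u, hu, hlim⟩ := main_real b hb p (by exact_mod_cast hp0) (by exact_mod_cast hp1)
  obtain ⟨ψ, hψ, huψ⟩ := Filter.strictMono_subseq_of_tendsto_atTop hu
  refine ⟨u ∘ ψ, huψ, ?_⟩
  have h2 := hlim.comp hψ.tendsto_atTop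
  exact (ENNReal.tendsto_toReal_iff (fun _ => measure_ne_top _ _) ENNReal.zero_ne_top).mp h2
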